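import Mathlib

/-!
# Near returns of an orbit: the abstract setting

`Sys f v E θ κ`: the orbit of `v` under `f`, with the absolute values `E j` of the derivatives and
the distances `θ j` to the critical points.
-/

set_option autoImplicit false
open Set Filter Topology Metric Finset

namespace Pool.Agent.Zk29.Ab

/-- The orbit of `v`. -/
structure Sys (f : ℂ → ℂ) (v : ℂ) (E θ : ℕ → ℝ) (κ : ℝ) : Prop where
  hκ : 1 ≤ κ
  E0 : ∀ j, 0 < E j
  th : ∀ j, 0 < θ j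
  val : ∀ j, ‖f^[j + 1] v - v‖ ≤ κ * (E j * θ j)
  lin : ∀ j w, κ * ‖w - f^[j] v‖ ≤ θ j →
    ‖f w - f^[j + 1] v‖ ≤ E j * ‖w - f^[j] v‖ * (1 + κ * ‖w - f^[j] v‖ / θ j)

/-- The derivative of the iterate. -/
noncomputable def DD (E : ℕ → ℝ) (j : ℕ) : ℝ := ∏ i ∈ Finset.range j, E i

lemma DD_zero (E : ℕ → ℝ) : DD E 0 = 1 := by
  unfold DD
  simp

lemma DD_succ (E : ℕ → ℝ) (j : ℕ) : DD E (j + 1) = DD E j * E j := by
  unfold DD
  rw [Finset.prod_range_succ]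

variable {f : ℂ → ℂ} {v : ℂ} {E θ : ℕ → ℝ} {κ : ℝ}

lemma Sys.DD_pos (S : Sys f v E θ κ) (j : ℕ) : 0 < DD E j := by
  unfold DD
  exact Finset.prod_pos fun i _ => S.E0 i

/-- The function `ρ (c - log ρ) ^ b` is monotone. -/
lemma mono_log {c ρ t : ℝ} {b : ℕ} (hc : (b : ℝ) ≤ c) (hc0 : 0 < c) (h0 : 0 < ρ) (h1 : ρ ≤ t)
    (h2 : t ≤ 1) : ρ * (c - Real.log ρ) ^ b ≤ t * (c - Real.log t) ^ b := by
  have ht : 0 < t := h0.trans_le h1
  obtain ⟨u, hu⟩ : ∃ u, u = c - Real.log t := ⟨_, rfl⟩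
  have hlt : Real.log t ≤ 0 := Real.log_nonpos ht.le h2
  have huc : c ≤ u := by linarith
  have hu0 : 0 < u := by linarith
  obtain ⟨s, hs⟩ : ∃ s, s = Real.log (t / ρ) := ⟨_, rfl⟩
  have hs0 : 0 ≤ s := by
    rw [hs]
    apply Real.log_nonneg
    rw [le_div_iff₀ h0]
    linarith
  have hus : c - Real.log ρ = u + s := by
    rw [hu, hs, Real.log_div ht.ne' h0.ne']
    ring
  have hexp : Real.exp s = t / ρ := by
    rw [hs, Real.exp_log (by positivity)]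
  have h3 : 1 + s / u ≤ Real.exp (s / u) := by
    have := Real.add_one_le_exp (s / u)
    linarith
  have h4 : (u + s) ^ b ≤ u ^ b * Real.exp s := by
    have h5 : u + s = u * (1 + s / u) := by field_simp
    rw [h5, mul_pow]
    have h6 : (1 + s / u) ^ b ≤ Real.exp s := by
      calc (1 + s / u) ^ b ≤ (Real.exp (s / u)) ^ b := by
            apply pow_le_pow_left₀ _ h3
            have : 0 ≤ s / u := by positivity
            linarith
        _ = Real.exp (b * (s / u)) := by rw [← Real.exp_nat_mul]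
        _ ≤ Real.exp s := by
            apply Real.exp_le_exp.mpr
            rw [mul_div_assoc', div_le_iff₀ hu0]
            nlinarith
    gcongr
  rw [hus, ← hu]
  calc ρ * (u + s) ^ b ≤ ρ * (u ^ b * Real.exp s) := by gcongr
    _ = t * u ^ b := by rw [hexp]; field_simp

/-- **Distortion.** Points near `v` shadow the orbit of `v`. -/
lemma Sys.shadow (S : Sys f v E θ κ) {N m : ℕ} (hN : 1 ≤ N) (hm : m ≤ N) {a : ℝ} (_ha : 0 ≤ a)
    (hsm : ∀ j < m, DD E j * a * (8 * κ * N) ≤ θ j) {x : ℂ} (hx : ‖x - v‖ ≤ a) :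
    ∀ j ≤ m, ‖f^[j] x - f^[j] v‖ ≤ 2 * (DD E j * ‖x - v‖) := by
  have hκ := S.hκ
  have hN0 : (0 : ℝ) < N := by exact_mod_cast (by omega : 0 < N)
  have hN1 : (1 : ℝ) ≤ N := by exact_mod_cast hN
  obtain ⟨β, hβ⟩ : ∃ β : ℝ, β = 1 / (4 * N) := ⟨_, rfl⟩
  have hβ0 : 0 < β := by rw [hβ]; positivity
  have hβ1 : β ≤ 1 := by
    rw [hβ, div_le_one (by positivity)]
    linarith
  have key : ∀ k : ℕ, k ≤ N → (1 + β) ^ k ≤ 2 := by
    intro k hk
    have h1 : (1 + β) ≤ Real.exp β := by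
      have := Real.add_one_le_exp β
      linarith
    have h2 : (1 + β) ^ k ≤ (Real.exp β) ^ N :=
      (pow_le_pow_left₀ (by linarith) h1 k).trans
        (pow_le_pow_right₀ (Real.one_le_exp hβ0.le) hk)
    rw [← Real.exp_nat_mul] at h2
    have h3 : (N : ℝ) * β = 1 / 4 := by
      rw [hβ]; field_simp
    rw [h3] at h2
    have h4 : Real.exp (1 / 4) ≤ 2 := by
      have h5 : Real.exp (1 / 4) ≤ Real.exp (Real.log 2) := by
        apply Real.exp_le_exp.mpr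
        have := Real.log_two_gt_d9
        linarith
      rwa [Real.exp_log (by norm_num)] at h5
    linarith
  have main : ∀ j ≤ m, ‖f^[j] x - f^[j] v‖ ≤ (1 + β) ^ j * (DD E j * ‖x - v‖) := by
    intro j
    induction j with
    | zero => intro _; rw [DD_zero]; simp
    | succ j ih =>
      intro hj
      have ih' := ih (by omega)
      have h1 := key j (by omega)
      have hD := S.DD_pos j
      have hθ := S.th j
      have hE := S.E0 j
      obtain ⟨s, hs⟩ : ∃ s, s = ‖f^[j] x - f^[j] v‖ := ⟨_, rfl⟩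
      have hs0 : 0 ≤ s := by rw [hs]; exact norm_nonneg _
      rw [← hs] at ih'
      have h2 : s ≤ 2 * (DD E j * a) := by
        refine ih'.trans ?_
        gcongr
      have h3 : κ * s ≤ β * θ j := by
        have h4 := hsm j (by omega)
        have h5 : κ * (2 * (DD E j * a)) = β * (DD E j * a * (8 * κ * N)) := by
          rw [hβ]; field_simp; ring
        calc κ * s ≤ κ * (2 * (DD E j * a)) := by gcongr
          _ = β * (DD E j * a * (8 * κ * N)) := h5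
          _ ≤ β * θ j := by gcongr
      have h6 : κ * s ≤ θ j := h3.trans (by nlinarith)
      have h7 := S.lin j (f^[j] x) (by rw [← hs]; exact h6)
      rw [← hs] at h7
      rw [Function.iterate_succ_apply' f j x]
      refine h7.trans ?_
      have h8 : κ * s / θ j ≤ β := by rw [div_le_iff₀ hθ]; exact h3
      rw [DD_succ]
      calc E j * s * (1 + κ * s / θ j)
          ≤ E j * ((1 + β) ^ j * (DD E j * ‖x - v‖)) * (1 + β) := by gcongr
        _ = _ := by rw [pow_succ]; ring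
  intro j hj
  refine (main j hj).trans ?_
  have := (S.DD_pos j).le
  gcongr
  exact key j (by omega)

/-- A deep return at time `J`: a disc about `v` is mapped into itself. -/
def Deep (f : ℂ → ℂ) (v : ℂ) (θ : ℕ → ℝ) (κ : ℝ) (J : ℕ) : Prop :=
  ∃ ρ : ℝ, 0 < ρ ∧ ‖f^[J] v - v‖ ≤ ρ ∧ ∀ x, ‖x - v‖ ≤ 2 * ρ →
    (∀ j < J, κ * ‖f^[j] x - f^[j] v‖ ≤ θ j) ∧ ‖f^[J] x - f^[J] v‖ ≤ ρ / 4

/-- The closing inequality at the times up to `N` and the scales in `[η, 1]`. -/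
structure Su (f : ℂ → ℂ) (v : ℂ) (E : ℕ → ℝ) (κ : ℝ) (N b : ℕ) (c Q η X : ℝ) : Prop where
  hN : 1 ≤ N
  hQ : 1 ≤ Q
  hη : 0 < η
  hη1 : η ≤ 1
  hX : 500 ≤ X
  hbc : (b : ℝ) ≤ c
  hc0 : 1 ≤ c
  hlog : ∀ j, Real.log ‖f^[j] v - v‖ ≤ c
  hX1 : 16 * N * Q * (c - Real.log η + 2 * Real.log X) ^ b ≤ X ^ 2
  hcl1 : ∀ (j : ℕ) (δ : ℝ), 1 ≤ j → j ≤ N → η ≤ δ → δ ≤ 1 →
    (∀ i, 1 ≤ i → i < j → δ ≤ ‖f^[i] v - v‖) → κ ^ 2 * (DD E j * δ) ≤ Q
  hcl2 : ∀ (j : ℕ) (δ : ℝ), 1 ≤ j → j ≤ N → η ≤ δ → δ ≤ 1 →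
    (∀ i, 1 ≤ i → i < j → δ ≤ ‖f^[i] v - v‖) → κ ^ 2 * (DD E j * δ) ≤
      Q * (‖f^[j] v - v‖ * (c - Real.log ‖f^[j] v - v‖) ^ b)

variable {N b : ℕ} {c Q η X : ℝ}

lemma Su.LX (s : Su f v E κ N b c Q η X) :
    0 < c - Real.log η ∧ 0 ≤ Real.log X ∧ (c - Real.log η) ^ b ≤
      (c - Real.log η + 2 * Real.log X) ^ b := by
  have h1 := Real.log_nonpos s.hη.le s.hη1
  have h2 := s.hc0
  have h3 : 0 ≤ Real.log X := Real.log_nonneg (by linarith [s.hX])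
  have h4 : 0 < c - Real.log η := by linarith
  refine ⟨h4, h3, ?_⟩
  gcongr
  linarith

/-- The size of the derivative against the distance of the orbit to the critical points. -/
lemma Su.ratio (s : Su f v E κ N b c Q η X) (S : Sys f v E θ κ) {J j : ℕ} {δ : ℝ} (hJN : J ≤ N)
    (hj : j + 1 ≤ J) (hηδ : η ≤ δ) (hδ1 : δ ≤ 1)
    (hap : ∀ i, 1 ≤ i → i < J → δ ≤ ‖f^[i] v - v‖) :
    κ * (DD E j * δ) ≤ Q * θ j * (c - Real.log ‖f^[j + 1] v - v‖) ^ b := by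
  have h2 := s.hcl2 (j + 1) δ (by omega) (by omega) hηδ hδ1 (fun i h1 h2 => hap i h1 (by omega))
  have hQ : 0 < Q := by linarith [s.hQ]
  have hκ : 0 < κ := by linarith [S.hκ]
  have hE := S.E0 j
  obtain ⟨L, hL⟩ : ∃ L, L = (c - Real.log ‖f^[j + 1] v - v‖) ^ b := ⟨_, rfl⟩
  have hL0 : 0 ≤ L := by
    rw [hL]
    have := s.hlog (j + 1)
    apply pow_nonneg
    linarith
  rw [← hL] at h2 ⊢
  have h3 := S.val j
  rw [DD_succ] at h2
  have h4 : (κ * (DD E j * δ)) * (κ * E j) ≤ (Q * θ j * L) * (κ * E j) := by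
    calc (κ * (DD E j * δ)) * (κ * E j) = κ ^ 2 * (DD E j * E j * δ) := by ring
      _ ≤ Q * (‖f^[j + 1] v - v‖ * L) := h2
      _ ≤ Q * ((κ * (E j * θ j)) * L) := by gcongr
      _ = _ := by ring
  exact le_of_mul_le_mul_right h4 (by positivity)

/-- **A deep first return.** -/
theorem Su.att (s : Su f v E κ N b c Q η X) (S : Sys f v E θ κ) {J : ℕ} {δ : ℝ} (hJ1 : 1 ≤ J)
    (hJN : J ≤ N) (hηδ : η ≤ δ) (hδ1 : δ ≤ 1)
    (hap : ∀ i, 1 ≤ i → i < J → δ ≤ ‖f^[i] v - v‖)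
    (hR0 : 0 < ‖f^[J] v - v‖) (hR : ‖f^[J] v - v‖ * X ^ 2 ≤ δ) : Deep f v θ κ J := by
  obtain ⟨ρ, hρ⟩ : ∃ ρ, ρ = ‖f^[J] v - v‖ := ⟨_, rfl⟩
  rw [← hρ] at hR0 hR
  have hX := s.hX
  have hX1 := s.hX1
  obtain ⟨hLη, hlX, hLL⟩ := s.LX
  obtain ⟨LX, hLX⟩ : ∃ LX, LX = (c - Real.log η + 2 * Real.log X) ^ b := ⟨_, rfl⟩
  rw [← hLX] at hX1 hLL
  have hLX0 : 0 ≤ LX := by
    rw [hLX]
    apply pow_nonneg
    linarith
  have hQ : 0 < Q := by linarith [s.hQ]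
  have hN0 : (1 : ℝ) ≤ N := by exact_mod_cast s.hN
  have hδ0 : 0 < δ := s.hη.trans_le hηδ
  have hX2 : 0 < X ^ 2 := by positivity
  have hX1' : 1 ≤ X ^ 2 := by nlinarith
  have hκ := S.hκ
  have hρδ : ρ ≤ δ := (le_mul_of_one_le_right hR0.le hX1').trans hR
  obtain ⟨Lρ, hLρ⟩ : ∃ Lρ, Lρ = (c - Real.log ρ) ^ b := ⟨_, rfl⟩
  have hlρ : 0 ≤ c - Real.log ρ := by
    have := Real.log_nonpos hR0.le (hρδ.trans hδ1)
    linarith [s.hc0]
  have hLρ0 : 0 ≤ Lρ := by rw [hLρ]; exact pow_nonneg hlρ b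
  -- the function `ρ (c - log ρ) ^ b`
  have hlog : ρ * Lρ * X ^ 2 ≤ δ * LX := by
    have h1 : ρ ≤ δ / X ^ 2 := by rw [le_div_iff₀ hX2]; exact hR
    have h2 : δ / X ^ 2 ≤ 1 := by
      rw [div_le_one hX2]
      nlinarith
    have h3 := mono_log s.hbc (by linarith [s.hc0]) hR0 h1 h2
    rw [← hLρ] at h3
    have h4 : (c - Real.log (δ / X ^ 2)) ^ b ≤ LX := by
      rw [hLX, Real.log_div hδ0.ne' hX2.ne', Real.log_pow]
      have h5 : Real.log η ≤ Real.log δ := Real.log_le_log s.hη hηδ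
      have h6 : Real.log δ ≤ 0 := Real.log_nonpos hδ0.le hδ1
      push_cast
      apply pow_le_pow_left₀
      · linarith [s.hc0]
      · linarith
    have h5 : ρ * Lρ ≤ δ / X ^ 2 * LX := by
      refine h3.trans ?_
      gcongr
    calc ρ * Lρ * X ^ 2 ≤ δ / X ^ 2 * LX * X ^ 2 := by gcongr
      _ = _ := by field_simp
  have hRj : ∀ j, j < J → ρ ≤ ‖f^[j + 1] v - v‖ := by
    intro j hj
    rcases Nat.lt_or_ge (j + 1) J with h | h
    · exact hρδ.trans (hap _ (by omega) h)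
    · have : j + 1 = J := by omega
      rw [this, hρ]
  have hratio : ∀ j < J, DD E j * (2 * ρ) * (8 * κ * N) ≤ θ j := by
    intro j hj
    have h1 := s.ratio S hJN (j := j) (by omega) hηδ hδ1 hap
    have h2 : Real.log ρ ≤ Real.log ‖f^[j + 1] v - v‖ := Real.log_le_log hR0 (hRj j hj)
    have hθ := S.th j
    have h3 : κ * (DD E j * δ) ≤ Q * θ j * Lρ := by
      refine h1.trans ?_
      rw [hLρ]
      have h5 := s.hlog (j + 1)
      gcongr
    have h4 : (DD E j * (2 * ρ) * (8 * κ * N)) * (δ * X ^ 2) ≤ θ j * (δ * X ^ 2) := by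
      calc (DD E j * (2 * ρ) * (8 * κ * N)) * (δ * X ^ 2)
          = 16 * N * ρ * X ^ 2 * (κ * (DD E j * δ)) := by ring
        _ ≤ 16 * N * ρ * X ^ 2 * (Q * θ j * Lρ) := by gcongr
        _ = 16 * N * Q * θ j * (ρ * Lρ * X ^ 2) := by ring
        _ ≤ 16 * N * Q * θ j * (δ * LX) := by gcongr
        _ = θ j * δ * (16 * N * Q * LX) := by ring
        _ ≤ θ j * δ * X ^ 2 := by gcongr
        _ = _ := by ring
    exact le_of_mul_le_mul_right h4 (by positivity)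
  have hDJ : DD E J ≤ 1 / 16 := by
    have h1 := s.hcl2 J δ hJ1 hJN hηδ hδ1 hap
    rw [← hρ, ← hLρ] at h1
    have hD := (S.DD_pos J).le
    have hκ2 : 1 ≤ κ ^ 2 := one_le_pow₀ hκ
    have h2 : DD E J * δ ≤ Q * (ρ * Lρ) := by
      refine le_trans ?_ h1
      exact le_mul_of_one_le_left (by positivity) hκ2
    have h3 : DD E J * (δ * X ^ 2 * 16) ≤ 1 / 16 * (δ * X ^ 2 * 16) := by
      calc DD E J * (δ * X ^ 2 * 16) = 16 * X ^ 2 * (DD E J * δ) := by ring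
        _ ≤ 16 * X ^ 2 * (Q * (ρ * Lρ)) := by gcongr
        _ = 16 * 1 * Q * (ρ * Lρ * X ^ 2) := by ring
        _ ≤ 16 * N * Q * (δ * LX) := by gcongr
        _ = δ * (16 * N * Q * LX) := by ring
        _ ≤ δ * X ^ 2 := by gcongr
        _ = _ := by ring
    exact le_of_mul_le_mul_right h3 (by positivity)
  refine ⟨ρ, hR0, by rw [hρ], ?_⟩
  intro x hx
  have hsh := S.shadow s.hN hJN (by positivity) hratio hx
  refine ⟨?_, ?_⟩
  · intro j hj
    have h1 := hsh j hj.le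
    have h2 := hratio j hj
    have hD := (S.DD_pos j).le
    have h3 : 2 * (DD E j * ‖x - v‖) ≤ 2 * (DD E j * (2 * ρ)) := by gcongr
    calc κ * ‖f^[j] x - f^[j] v‖ ≤ κ * (2 * (DD E j * (2 * ρ))) := by
          gcongr
          exact h1.trans h3
      _ = DD E j * (2 * ρ) * (2 * κ * 1) := by ring
      _ ≤ DD E j * (2 * ρ) * (8 * κ * N) := by
          gcongr
          norm_num
      _ ≤ θ j := h2
  · calc _ ≤ 2 * (DD E J * ‖x - v‖) := hsh J le_rfl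
      _ ≤ 2 * (1 / 16 * (2 * ρ)) := by gcongr
      _ = ρ / 4 := by ring

/-- **Two near returns give a near return at a time which is at most their difference.** -/
theorem Su.gap (s : Su f v E κ N b c Q η X) (S : Sys f v E θ κ) {p q : ℕ} {a : ℝ}
    (hq : 1 ≤ q) (hqp : q < p)
    (hpN : p ≤ N) (ha : 0 < a) (h1 : ‖f^[q] v - v‖ ≤ a) (h2 : ‖f^[p] v - v‖ ≤ a)
    (ha1 : η ≤ a * X ^ 2) (ha2 : a * X ^ 2 ≤ 1) :
    ∃ j, 1 ≤ j ∧ j ≤ p - q ∧ ‖f^[j] v - v‖ ≤ a * X ^ 2 := by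
  by_contra hcon
  push Not at hcon
  have hX := s.hX
  have hX1 := s.hX1
  obtain ⟨hLη, hlX, hLL⟩ := s.LX
  obtain ⟨LX, hLX⟩ : ∃ LX, LX = (c - Real.log η + 2 * Real.log X) ^ b := ⟨_, rfl⟩
  rw [← hLX] at hX1 hLL
  have hLX0 : 0 ≤ LX := le_trans (pow_nonneg hLη.le b) hLL
  have hQ : 0 < Q := by linarith [s.hQ]
  have hκ := S.hκ
  have hN0 : (1 : ℝ) ≤ N := by exact_mod_cast s.hN
  have hX2 : 0 < X ^ 2 := by positivity
  obtain ⟨m, hm⟩ : ∃ m, m = p - q := ⟨_, rfl⟩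
  rw [← hm] at hcon
  obtain ⟨δ, hδ⟩ : ∃ δ, δ = a * X ^ 2 := ⟨_, rfl⟩
  rw [← hδ] at ha1 ha2 hcon
  have hδ0 : 0 < δ := by rw [hδ]; positivity
  have hm1 : 1 ≤ m := by omega
  have hmN : m ≤ N := by omega
  have hlog : ∀ j, 1 ≤ j → j ≤ m → (c - Real.log ‖f^[j] v - v‖) ^ b ≤ LX := by
    intro j h3 h4
    have h5 := Real.log_le_log s.hη (ha1.trans (hcon j h3 h4).le)
    refine le_trans ?_ hLL
    have h6 := s.hlog j
    apply pow_le_pow_left₀
    · linarith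
    · linarith
  have hap : ∀ i, 1 ≤ i → i < m → δ ≤ ‖f^[i] v - v‖ := fun i h3 h4 => (hcon i h3 h4.le).le
  have hratio : ∀ j < m, DD E j * a * (8 * κ * N) ≤ θ j := by
    intro j hj
    have h3 := s.ratio S hmN (j := j) (by omega) ha1 ha2 hap
    have h4 := hlog (j + 1) (by omega) (by omega)
    have hθ := S.th j
    have h5 : (DD E j * a * (8 * κ * N)) * X ^ 2 ≤ θ j * X ^ 2 := by
      calc (DD E j * a * (8 * κ * N)) * X ^ 2 = 8 * N * (κ * (DD E j * δ)) := by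
            rw [hδ]; ring
        _ ≤ 8 * N * (Q * θ j * (c - Real.log ‖f^[j + 1] v - v‖) ^ b) := by gcongr
        _ ≤ 8 * N * (Q * θ j * LX) := by gcongr
        _ = θ j * (8 * N * Q * LX) := by ring
        _ ≤ θ j * (16 * N * Q * LX) := by
            have : 8 * N * Q * LX ≤ 16 * N * Q * LX := by
              have : 0 ≤ N * Q * LX := by positivity
              nlinarith
            gcongr
        _ ≤ _ := by gcongr
    exact le_of_mul_le_mul_right h5 hX2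
  have h3 := S.shadow s.hN hmN ha.le hratio h1 m le_rfl
  rw [← Function.iterate_add_apply, show m + q = p by omega] at h3
  have h4 : 2 * (DD E m * ‖f^[q] v - v‖) ≤ ‖f^[m] v - v‖ / 4 := by
    have h5 := s.hcl2 m δ hm1 hmN ha1 ha2 hap
    have hD := (S.DD_pos m).le
    have hκ2 : 1 ≤ κ ^ 2 := one_le_pow₀ hκ
    have h6 : DD E m * δ ≤ Q * (‖f^[m] v - v‖ * LX) := by
      refine le_trans (le_mul_of_one_le_left (by positivity) hκ2) (h5.trans ?_)
      gcongr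
      exact hlog m hm1 le_rfl
    have h7 : (2 * (DD E m * ‖f^[q] v - v‖)) * X ^ 2 ≤ ‖f^[m] v - v‖ / 4 * X ^ 2 := by
      calc (2 * (DD E m * ‖f^[q] v - v‖)) * X ^ 2 ≤ (2 * (DD E m * a)) * X ^ 2 := by
            gcongr
        _ = 2 * (DD E m * δ) := by rw [hδ]; ring
        _ ≤ 2 * (Q * (‖f^[m] v - v‖ * LX)) := by gcongr
        _ = ‖f^[m] v - v‖ / 4 * (8 * 1 * Q * LX) := by ring
        _ ≤ ‖f^[m] v - v‖ / 4 * (16 * N * Q * LX) := by gcongr; norm_num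
        _ ≤ _ := by gcongr
    exact le_of_mul_le_mul_right h7 hX2
  have h5 : ‖f^[m] v - v‖ ≤ ‖f^[p] v - f^[m] v‖ + ‖f^[p] v - v‖ := by
    calc ‖f^[m] v - v‖ = ‖(f^[p] v - v) - (f^[p] v - f^[m] v)‖ := by
          congr 1; ring
      _ ≤ ‖f^[p] v - v‖ + ‖f^[p] v - f^[m] v‖ := norm_sub_le _ _
      _ = _ := add_comm _ _
  have h6 := hcon m hm1 le_rfl
  have h7 : 4 * a ≤ δ := by
    have h8 : (4 : ℝ) ≤ X ^ 2 := by nlinarith
    rw [hδ]
    calc 4 * a = a * 4 := mul_comm _ _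
      _ ≤ a * X ^ 2 := by gcongr
  linarith

/-- **Halving.** -/
theorem Su.halve (s : Su f v E κ N b c Q η X) (S : Sys f v E θ κ)
    (hno : ∀ m, 1 ≤ m → m ≤ N → ¬ Deep f v θ κ m)
    (hne : ∀ m, 1 ≤ m → m ≤ N → f^[m] v ≠ v) {N' p : ℕ} {a : ℝ}
    (hN' : N' ≤ N) (hp1 : 1 ≤ p) (hpN : p ≤ N') (ha : 0 < a) (hηa : η ≤ a)
    (ha1 : a * X ^ 4 ≤ 1) (hp : ‖f^[p] v - v‖ ≤ a) :
    ∃ q, 1 ≤ q ∧ 2 * q ≤ N' ∧ ‖f^[q] v - v‖ ≤ a * X ^ 4 := by
  classical
  have hX := s.hX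
  have hX2 : 1 ≤ X ^ 2 := by nlinarith
  have hX4 : X ^ 4 = X ^ 2 * X ^ 2 := by ring
  have hex : ∃ p, 1 ≤ p ∧ ‖f^[p] v - v‖ ≤ a := ⟨p, hp1, hp⟩
  obtain ⟨k, hk⟩ : ∃ k, k = Nat.find hex := ⟨_, rfl⟩
  have hk1 : 1 ≤ k := by rw [hk]; exact (Nat.find_spec hex).1
  have hka : ‖f^[k] v - v‖ ≤ a := by rw [hk]; exact (Nat.find_spec hex).2
  have hkp : k ≤ p := by rw [hk]; exact Nat.find_le ⟨hp1, hp⟩
  have hkN : k ≤ N := by omega
  have haX : a ≤ a * X ^ 2 := le_mul_of_one_le_right ha.le hX2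
  have haX4 : a * X ^ 2 ≤ a * X ^ 4 := by
    rw [hX4, ← mul_assoc]
    exact le_mul_of_one_le_right (by positivity) hX2
  have hq : ∃ q, 1 ≤ q ∧ q < k ∧ ‖f^[q] v - v‖ ≤ a * X ^ 2 := by
    by_contra hcon
    push Not at hcon
    have h0 : 0 < ‖f^[k] v - v‖ := by
      rw [norm_pos_iff, sub_ne_zero]
      exact hne k hk1 hkN
    exact hno k hk1 hkN (s.att S hk1 hkN (hηa.trans haX) (haX4.trans ha1)
      (fun i h1 h2 => (hcon i h1 h2).le) h0
      (mul_le_mul_of_nonneg_right hka (by positivity)))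
  obtain ⟨q, hq1, hqk, hqa⟩ := hq
  obtain ⟨j, hj1, hjk, hja⟩ := s.gap S hq1 hqk hkN (by positivity) hqa (hka.trans haX)
    (by
      rw [mul_assoc, ← hX4]
      exact hηa.trans (haX.trans haX4))
    (by rw [mul_assoc, ← hX4]; exact ha1)
  rw [mul_assoc, ← hX4] at hja
  rcases Nat.le_total q j with h | h
  · exact ⟨q, hq1, by omega, hqa.trans haX4⟩
  · exact ⟨j, hj1, by omega, hja⟩

/-- **No near returns below a quasi-polynomial scale.** -/
theorem Su.no_return (s : Su f v E κ N b c Q η X) (S : Sys f v E θ κ)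
    (hno : ∀ m, 1 ≤ m → m ≤ N → ¬ Deep f v θ κ m)
    (hne : ∀ m, 1 ≤ m → m ≤ N → f^[m] v ≠ v) {k p : ℕ} {a : ℝ} (hk : N < 2 ^ k)
    (hp1 : 1 ≤ p) (hpN : p ≤ N) (ha : 0 < a) (hηa : η ≤ a)
    (hp : ‖f^[p] v - v‖ ≤ a) : 1 < a * (X ^ 4) ^ k := by
  by_contra hcon
  push Not at hcon
  have hX := s.hX
  have hX4 : 1 ≤ X ^ 4 := one_le_pow₀ (by linarith)
  have main : ∀ i ≤ k, ∃ q, 1 ≤ q ∧ 2 ^ i * q ≤ N ∧ ‖f^[q] v - v‖ ≤ a * (X ^ 4) ^ i := by
    intro i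
    induction i with
    | zero => intro _; exact ⟨p, hp1, by simpa using hpN, by simpa using hp⟩
    | succ i ih =>
      intro hi
      obtain ⟨q, hq1, hqN, hqa⟩ := ih (by omega)
      have h2i : 0 < 2 ^ i := by positivity
      have hqN' : q ≤ N / 2 ^ i := by
        rw [Nat.le_div_iff_mul_le h2i, mul_comm]; exact hqN
      have hai : a ≤ a * (X ^ 4) ^ i := le_mul_of_one_le_right ha.le (one_le_pow₀ hX4)
      obtain ⟨q', h1, h2, h3⟩ := s.halve S hno hne (N' := N / 2 ^ i) (Nat.div_le_self _ _) hq1 hqN'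
        (a := a * (X ^ 4) ^ i) (by positivity) (hηa.trans hai) (by
          rw [mul_assoc, ← pow_succ]
          refine le_trans ?_ hcon
          gcongr) hqa
      refine ⟨q', h1, ?_, ?_⟩
      · rw [Nat.le_div_iff_mul_le h2i] at h2
        calc 2 ^ (i + 1) * q' = 2 * q' * 2 ^ i := by ring
          _ ≤ N := h2
      · rw [mul_assoc, ← pow_succ] at h3
        exact h3
  obtain ⟨q, h1, h2, -⟩ := main k le_rfl
  have h3 : 2 ^ k * 1 ≤ 2 ^ k * q := Nat.mul_le_mul_left _ h1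
  omega

/-- **The derivative.** -/
theorem Su.deriv_lt (s : Su f v E κ N b c Q η X) (S : Sys f v E θ κ)
    (hno : ∀ m, 1 ≤ m → m ≤ N → ¬ Deep f v θ κ m)
    (hne : ∀ m, 1 ≤ m → m ≤ N → f^[m] v ≠ v) {k : ℕ} (hk : N < 2 ^ k)
    (hηD : η * DD E N ≤ 4 * Q) :
    DD E N ≤ 4 * Q * (X ^ 4) ^ k := by
  by_contra hcon
  push Not at hcon
  have hX := s.hX
  have hκ := S.hκ
  have hQ : 0 < Q := by linarith [s.hQ]
  have hX4 : 1 ≤ X ^ 4 := one_le_pow₀ (by linarith)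
  have hXk : 1 ≤ (X ^ 4) ^ k := one_le_pow₀ hX4
  have hD0 : 0 < DD E N := S.DD_pos N
  obtain ⟨a, ha⟩ : ∃ a, a = 4 * Q / DD E N := ⟨_, rfl⟩
  have ha0 : 0 < a := by rw [ha]; positivity
  have hηa : η ≤ a := by rw [ha, le_div_iff₀ hD0]; exact hηD
  have ha1 : a * (X ^ 4) ^ k ≤ 1 := by
    rw [ha, div_mul_eq_mul_div, div_le_one hD0]
    exact hcon.le
  have ha1' : a ≤ 1 := le_trans (le_mul_of_one_le_right ha0.le hXk) ha1
  have hex : ∃ p, 1 ≤ p ∧ p < N ∧ ‖f^[p] v - v‖ ≤ a := by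
    by_contra hc
    push Not at hc
    have h1 := s.hcl1 N a s.hN le_rfl hηa ha1' (fun i h1 h2 => (hc i h1 h2).le)
    have h2 : DD E N * a = 4 * Q := by rw [ha]; field_simp
    rw [h2] at h1
    have hκ2 : 1 ≤ κ ^ 2 := one_le_pow₀ hκ
    nlinarith
  obtain ⟨p, hp1, hpN, hp⟩ := hex
  have := s.no_return S hno hne hk hp1 hpN.le ha0 hηa hp
  linarith

end Pool.Agent.Zk29.Ab
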