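import Pool.Agent.Zk29.Ab.B1

/-!
# The quasi-polynomial bound for the derivatives
-/

set_option autoImplicit false
open Set Filter Topology Metric Finset

namespace Pool.Agent.Zk29.Ab

/-- The closing inequalities of an orbit. -/
structure Cl (f : ℂ → ℂ) (v : ℂ) (E : ℕ → ℝ) (Esc : ℂ → ℕ → Prop) (A c : ℝ) (b : ℕ) : Prop where
  one : ∀ (J M : ℕ) (y : ℂ) (δ W : ℝ), 1 ≤ J → 1 ≤ M → Esc y M → 0 < δ → δ ≤ 1 →
    (∀ i, 1 ≤ i → i < J → δ ≤ ‖f^[i] v - v‖) → 1 ≤ W →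
    ∑ i ∈ Finset.range J, (DD E i)⁻¹ ≤ Real.exp W → A * W ^ A * ‖y - v‖ ≤ δ →
    DD E J * δ ≤ A * W ^ A * (M : ℝ) ^ 2
  two : ∀ (J M : ℕ) (y : ℂ) (δ W : ℝ), 1 ≤ J → 1 ≤ M → Esc y M → 0 < δ → δ ≤ 1 →
    (∀ i, 1 ≤ i → i < J → δ ≤ ‖f^[i] v - v‖) → 1 ≤ W →
    ∑ i ∈ Finset.range J, (DD E i)⁻¹ ≤ Real.exp W → A * W ^ A * ‖y - v‖ ≤ δ →
    DD E J * δ ≤ A * W ^ A * (M : ℝ) ^ 2 *
      (‖f^[J] v - v‖ * (c - Real.log ‖f^[J] v - v‖) ^ b)

variable {f : ℂ → ℂ} {v : ℂ} {E θ : ℕ → ℝ} {κ : ℝ} {Esc : ℂ → ℕ → Prop} {A c : ℝ} {b : ℕ}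

/-- If the derivatives are unbounded, then `v` is not periodic. -/
lemma Cl.ne (C : Cl f v E Esc A c b) (S : Sys f v E θ κ) (hA : 1 ≤ A) {C₁ : ℝ}
    (hcau : ∀ (N : ℕ) (s : ℝ), 1 ≤ N → 0 < s → C₁ ≤ DD E N * s → ∃ y, ‖y - v‖ ≤ s ∧ Esc y N)
    (hub : ∀ B : ℝ, ∃ N, B < DD E N) (m : ℕ) (hm : 1 ≤ m) : f^[m] v ≠ v := by
  classical
  intro hmv
  have hex : ∃ m, 1 ≤ m ∧ f^[m] v = v := ⟨m, hm, hmv⟩
  obtain ⟨k, hk⟩ : ∃ k, k = Nat.find hex := ⟨_, rfl⟩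
  have hk1 : 1 ≤ k := by rw [hk]; exact (Nat.find_spec hex).1
  have hkv : f^[k] v = v := by rw [hk]; exact (Nat.find_spec hex).2
  have hkm : ∀ i, 1 ≤ i → i < k → f^[i] v ≠ v := by
    intro i h1 h2 h3
    rw [hk] at h2
    exact Nat.find_min hex h2 ⟨h1, h3⟩
  obtain ⟨δ, hδ0, hδ1, hδ⟩ : ∃ δ : ℝ, 0 < δ ∧ δ ≤ 1 ∧ ∀ i, 1 ≤ i → i < k →
      δ ≤ ‖f^[i] v - v‖ := by
    have : ∀ n ≤ k, ∃ δ : ℝ, 0 < δ ∧ δ ≤ 1 ∧ ∀ i, 1 ≤ i → i < n → δ ≤ ‖f^[i] v - v‖ := by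
      intro n
      induction n with
      | zero => intro _; exact ⟨1, one_pos, le_rfl, fun i _ h => absurd h (by omega)⟩
      | succ n ih =>
        intro hn
        obtain ⟨δ, h1, h2, h3⟩ := ih (by omega)
        rcases Nat.eq_zero_or_pos n with h0 | h0
        · exact ⟨1, one_pos, le_rfl, fun i h4 h5 => absurd h5 (by omega)⟩
        · have h4 : 0 < ‖f^[n] v - v‖ := by
            rw [norm_pos_iff, sub_ne_zero]
            exact hkm n h0 (by omega)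
          refine ⟨min δ ‖f^[n] v - v‖, lt_min h1 h4, (min_le_left _ _).trans h2, ?_⟩
          intro i h5 h6
          rcases Nat.lt_succ_iff_lt_or_eq.1 h6 with h7 | h7
          · exact (min_le_left _ _).trans (h3 i h5 h7)
          · rw [h7]
            exact min_le_right _ _
    exact this k le_rfl
  obtain ⟨Sm, hSm⟩ : ∃ Sm, Sm = ∑ i ∈ Finset.range k, (DD E i)⁻¹ := ⟨_, rfl⟩
  have hSm0 : 0 ≤ Sm := by
    rw [hSm]
    exact Finset.sum_nonneg fun i _ => inv_nonneg.2 (S.DD_pos i).le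
  have hW1 : (1 : ℝ) ≤ 1 + Sm := by linarith
  have hWA : 0 < (1 + Sm) ^ A := Real.rpow_pos_of_pos (by linarith) A
  have hA0 : 0 < A := by linarith
  obtain ⟨s, hs⟩ : ∃ s, s = δ / (A * (1 + Sm) ^ A) := ⟨_, rfl⟩
  have hs0 : 0 < s := by rw [hs]; positivity
  obtain ⟨N, hN⟩ := hub (max 1 (C₁ / s))
  have hN1 : 1 ≤ N := by
    by_contra h
    have h0 : N = 0 := by omega
    rw [h0, DD_zero] at hN
    have := le_max_left 1 (C₁ / s)
    linarith
  have hNs : C₁ ≤ DD E N * s := by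
    have h1 := (le_max_right 1 (C₁ / s)).trans hN.le
    rwa [div_le_iff₀ hs0] at h1
  obtain ⟨y, hy, hyN⟩ := hcau N s hN1 hs0 hNs
  have h1 := C.two k N y δ (1 + Sm) hk1 hN1 hyN hδ0 hδ1 hδ hW1 (by
    rw [← hSm]
    have := Real.add_one_le_exp (1 + Sm)
    linarith) (by
    rw [hs] at hy
    calc A * (1 + Sm) ^ A * ‖y - v‖ ≤ A * (1 + Sm) ^ A * (δ / (A * (1 + Sm) ^ A)) := by gcongr
      _ = δ := by field_simp)
  rw [hkv, sub_self, norm_zero, zero_mul, mul_zero] at h1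
  have h2 := S.DD_pos k
  have h3 : 0 < DD E k * δ := by positivity
  linarith

/-- The sum of the inverse derivatives. -/
lemma Sys.sum_le (S : Sys f v E θ κ) {Θ : ℝ} (hΘ : 1 ≤ Θ) (hθ : ∀ j, θ j ≤ Θ) {N J : ℕ}
    {δ : ℝ} (hJN : J ≤ N) (hδ0 : 0 < δ) (hδ1 : δ ≤ 1)
    (hap : ∀ i, 1 ≤ i → i < J → δ ≤ ‖f^[i] v - v‖) :
    ∑ i ∈ Finset.range J, (DD E i)⁻¹ ≤
      Real.exp (N * (1 + Real.log (κ * Θ) - Real.log δ)) := by
  have hκ := S.hκ
  have hκΘ : 1 ≤ κ * Θ := one_le_mul_of_one_le_of_one_le hκ hΘ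
  obtain ⟨q, hq⟩ : ∃ q, q = δ / (κ * Θ) := ⟨_, rfl⟩
  have hq0 : 0 < q := by rw [hq]; positivity
  have hq1 : q ≤ 1 := by
    rw [hq, div_le_one (by positivity)]
    linarith
  have h1 : ∀ i, i < J → q ^ i ≤ DD E i := by
    intro i
    induction i with
    | zero => intro _; rw [DD_zero, pow_zero]
    | succ i ih =>
      intro hi
      have h2 := ih (by omega)
      have h3 := hap (i + 1) (by omega) hi
      have h4 := S.val i
      have h5 := S.E0 i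
      rw [DD_succ, pow_succ]
      have h6 : q ≤ E i := by
        rw [hq, div_le_iff₀ (by positivity)]
        calc δ ≤ κ * (E i * θ i) := h3.trans h4
          _ ≤ κ * (E i * Θ) := by gcongr; exact hθ i
          _ = _ := by ring
      have h7 := (S.DD_pos i).le
      gcongr
  have h2 : ∀ i ∈ Finset.range J, (DD E i)⁻¹ ≤ (q ^ N)⁻¹ := by
    intro i hi
    rw [Finset.mem_range] at hi
    have h3 : q ^ N ≤ q ^ i := pow_le_pow_of_le_one hq0.le hq1 (by omega)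
    exact inv_anti₀ (by positivity) (h3.trans (h1 i hi))
  have h3 : ∑ i ∈ Finset.range J, (DD E i)⁻¹ ≤ N * (q ^ N)⁻¹ := by
    refine (Finset.sum_le_sum h2).trans ?_
    rw [Finset.sum_const, Finset.card_range, nsmul_eq_mul]
    gcongr
  refine h3.trans ?_
  have h4 : (N : ℝ) ≤ Real.exp N := by
    have := Real.add_one_le_exp (N : ℝ)
    linarith
  have h5 : (q ^ N)⁻¹ = Real.exp (N * (Real.log (κ * Θ) - Real.log δ)) := by
    rw [← Real.log_div (by positivity) hδ0.ne', Real.exp_nat_mul, Real.exp_log (by positivity),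
      hq, ← inv_pow, inv_div]
  rw [h5]
  calc (N : ℝ) * Real.exp (N * (Real.log (κ * Θ) - Real.log δ))
      ≤ Real.exp N * Real.exp (N * (Real.log (κ * Θ) - Real.log δ)) := by gcongr
    _ = _ := by rw [← Real.exp_add]; congr 1; ring

/-- A large constant. -/
lemma exists_K (C c₂ : ℝ) (b : ℕ) (_hC : 0 ≤ C) (hc₂ : 0 ≤ c₂) : ∃ K : ℝ, 500 ≤ K ∧
    C * (c₂ + 2 * Real.log K) ^ b ≤ K ^ 2 := by
  have h1 := Real.tendsto_pow_mul_exp_neg_atTop_nhds_zero b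
  have h2 := (h1.const_mul (C * Real.exp c₂)).eventually
    (Iio_mem_nhds (show C * Real.exp c₂ * 0 < 1 by rw [mul_zero]; exact one_pos))
  obtain ⟨x₀, hx₀⟩ := h2.exists_forall_of_atTop
  obtain ⟨T, hT⟩ : ∃ T, T = max (Real.log 500) (|x₀|) := ⟨_, rfl⟩
  have hT1 : Real.log 500 ≤ T := by rw [hT]; exact le_max_left _ _
  have hT2 : x₀ ≤ T := by rw [hT]; exact (le_abs_self _).trans (le_max_right _ _)
  have hT0 : 0 ≤ T := (Real.log_nonneg (by norm_num)).trans hT1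
  refine ⟨Real.exp T, ?_, ?_⟩
  · rw [← Real.log_le_iff_le_exp (by norm_num)]
    exact hT1
  · rw [Real.log_exp]
    have h3 := hx₀ (c₂ + 2 * T) (by linarith)
    have h4 : C * Real.exp c₂ * ((c₂ + 2 * T) ^ b * Real.exp (-(c₂ + 2 * T))) < 1 := h3
    have h5 : Real.exp c₂ * Real.exp (-(c₂ + 2 * T)) * Real.exp T ^ 2 = 1 := by
      rw [← Real.exp_nat_mul, ← Real.exp_add, ← Real.exp_add, Real.exp_eq_one_iff]
      push_cast
      ring
    have h6 : 0 < Real.exp T ^ 2 := by positivity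
    calc C * (c₂ + 2 * T) ^ b
        = (C * Real.exp c₂ * ((c₂ + 2 * T) ^ b * Real.exp (-(c₂ + 2 * T)))) * Real.exp T ^ 2 := by
          have : C * Real.exp c₂ * ((c₂ + 2 * T) ^ b * Real.exp (-(c₂ + 2 * T))) *
            Real.exp T ^ 2 = C * (c₂ + 2 * T) ^ b *
              (Real.exp c₂ * Real.exp (-(c₂ + 2 * T)) * Real.exp T ^ 2) := by ring
          rw [this, h5, mul_one]
      _ ≤ 1 * Real.exp T ^ 2 := by gcongr
      _ = _ := one_mul _

/-- **The quasi-polynomial bound.** -/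
theorem quasi (C : Cl f v E Esc A c b) (S : Sys f v E θ κ) (hA : 1 ≤ A) (hbc : (b : ℝ) ≤ c)
    (hc0 : 1 ≤ c) (hlog : ∀ j, Real.log ‖f^[j] v - v‖ ≤ c) {Θ Λ C₁ : ℝ} (hΘ : 1 ≤ Θ)
    (hΛ : 1 ≤ Λ) (hC₁ : 1 ≤ C₁) (hθ : ∀ j, θ j ≤ Θ) (hE : ∀ j, E j ≤ Λ)
    (hcau : ∀ (N : ℕ) (s : ℝ), 1 ≤ N → 0 < s → C₁ ≤ DD E N * s → ∃ y, ‖y - v‖ ≤ s ∧ Esc y N)
    (hno : ∀ m, 1 ≤ m → ¬ Deep f v θ κ m) :
    ∃ K : ℝ, ∀ N : ℕ, 2 ≤ N → DD E N ≤ Real.exp (K * Real.log N ^ 2) := by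
  have hκ := S.hκ
  have hl2 : 0 < Real.log 2 := Real.log_pos (by norm_num)
  have hNlog : ∀ N : ℕ, 2 ≤ N → Real.log 2 ≤ Real.log N := fun N hN =>
    Real.log_le_log (by norm_num) (by exact_mod_cast hN)
  by_cases hub : ∀ B : ℝ, ∃ N, B < DD E N
  swap
  · push Not at hub
    obtain ⟨B, hB⟩ := hub
    have hB1 : 1 ≤ B := by
      have := hB 0
      rwa [DD_zero] at this
    refine ⟨Real.log B / Real.log 2 ^ 2, fun N hN => (hB N).trans ?_⟩
    rw [← Real.log_le_iff_le_exp (by linarith), div_mul_eq_mul_div, le_div_iff₀ (by positivity)]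
    have h1 := Real.log_nonneg hB1
    have h2 := hNlog N hN
    gcongr
  have hne := C.ne S hA hcau hub
  -- the constants
  have hκΘ : 1 ≤ κ * Θ := one_le_mul_of_one_le_of_one_le hκ hΘ
  obtain ⟨K₁, hK₁⟩ : ∃ K₁, K₁ = 1 + Real.log (κ * Θ) + Real.log Λ := ⟨_, rfl⟩
  have hlκ := Real.log_nonneg hκΘ
  have hlΛ := Real.log_nonneg hΛ
  have hK₁1 : 1 ≤ K₁ := by linarith
  obtain ⟨a, ha⟩ : ∃ a : ℕ, a = ⌈A⌉₊ := ⟨_, rfl⟩
  have haA : A ≤ a := by rw [ha]; exact Nat.le_ceil A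
  obtain ⟨m, hm⟩ : ∃ m : ℕ, m = 2 * a + 3 + b := ⟨_, rfl⟩
  obtain ⟨c₂, hc₂⟩ : ∃ c₂ : ℝ, c₂ = c + Real.log Λ + 2 * m := ⟨_, rfl⟩
  have hc₂0 : 0 ≤ c₂ := by
    rw [hc₂]
    have : (0 : ℝ) ≤ m := Nat.cast_nonneg m
    linarith
  obtain ⟨K, hK500, hK⟩ := exists_K (16 * (C₁ * κ ^ 2 * A * K₁ ^ a)) c₂ b (by positivity) hc₂0
  have hK0 : 0 < K := by linarith
  have hlK : 0 ≤ Real.log K := Real.log_nonneg (by linarith)
  obtain ⟨Kf, hKf⟩ : ∃ Kf : ℝ, Kf = 10 / Real.log 2 * (Real.log K / Real.log 2 + m) +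
      Real.log C₁ / Real.log 2 ^ 2 := ⟨_, rfl⟩
  refine ⟨Kf, ?_⟩
  intro N hN
  have hN2 : (2 : ℝ) ≤ N := by exact_mod_cast hN
  have hN1 : (1 : ℝ) ≤ N := by linarith
  have hlN := hNlog N hN
  have hlN0 : 0 < Real.log N := by linarith
  have hD0 := S.DD_pos N
  -- the final bound
  obtain ⟨X, hX⟩ : ∃ X : ℝ, X = K * (N : ℝ) ^ m := ⟨_, rfl⟩
  have hX0 : 0 < X := by rw [hX]; positivity
  have hlX : Real.log X = Real.log K + m * Real.log N := by
    rw [hX, Real.log_mul hK0.ne' (by positivity), Real.log_pow]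
  have hNm : 1 ≤ (N : ℝ) ^ m := one_le_pow₀ hN1
  have hX500 : 500 ≤ X := by rw [hX]; nlinarith
  have hfin : ∀ D : ℝ, 0 < D → D ≤ X ^ (4 * (Nat.log 2 N + 1) + 2) →
      D ≤ Real.exp (Kf * Real.log N ^ 2) := by
    intro D hD hDX
    rw [← Real.log_le_iff_le_exp hD]
    have h1 := Real.log_le_log hD hDX
    rw [Real.log_pow] at h1
    refine h1.trans ?_
    have hlog2 : (Nat.log 2 N : ℝ) * Real.log 2 ≤ Real.log N := by
      have h1 : 2 ^ Nat.log 2 N ≤ N := Nat.pow_log_le_self 2 (by omega)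
      have h2 : ((2 : ℝ)) ^ Nat.log 2 N ≤ N := by exact_mod_cast h1
      have h3 := Real.log_le_log (by positivity) h2
      rwa [Real.log_pow] at h3
    have h2 : ((4 * (Nat.log 2 N + 1) + 2 : ℕ) : ℝ) ≤ 10 / Real.log 2 * Real.log N := by
      push_cast
      rw [div_mul_eq_mul_div, le_div_iff₀ hl2]
      nlinarith
    have h3 : Real.log X ≤ (Real.log K / Real.log 2 + m) * Real.log N := by
      rw [hlX, add_mul]
      have : Real.log K ≤ Real.log K / Real.log 2 * Real.log N := by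
        rw [div_mul_eq_mul_div, le_div_iff₀ hl2]
        gcongr
      linarith
    have h4 : 0 ≤ Real.log X := Real.log_nonneg (by linarith)
    have h5 : 0 ≤ Real.log C₁ / Real.log 2 ^ 2 := by
      have := Real.log_nonneg hC₁
      positivity
    calc ((4 * (Nat.log 2 N + 1) + 2 : ℕ) : ℝ) * Real.log X
        ≤ (10 / Real.log 2 * Real.log N) * ((Real.log K / Real.log 2 + m) * Real.log N) := by
          gcongr
      _ = 10 / Real.log 2 * (Real.log K / Real.log 2 + m) * Real.log N ^ 2 := by ring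
      _ ≤ Kf * Real.log N ^ 2 := by
          rw [hKf]
          gcongr
          linarith
  rcases le_or_gt (DD E N) C₁ with hDC | hDC
  · refine hDC.trans ?_
    rw [← Real.log_le_iff_le_exp (by linarith)]
    have h1 := Real.log_nonneg hC₁
    have h2 : Real.log C₁ ≤ Real.log C₁ / Real.log 2 ^ 2 * Real.log N ^ 2 := by
      rw [div_mul_eq_mul_div, le_div_iff₀ (by positivity)]
      gcongr
    have h3 : 0 ≤ 10 / Real.log 2 * (Real.log K / Real.log 2 + m) * Real.log N ^ 2 := by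
      positivity
    rw [hKf, add_mul]
    linarith
  -- the scale of an escaping point
  obtain ⟨ε, hε⟩ : ∃ ε, ε = C₁ / DD E N := ⟨_, rfl⟩
  have hε0 : 0 < ε := by rw [hε]; positivity
  have hε1 : ε ≤ 1 := by rw [hε, div_le_one hD0]; exact hDC.le
  obtain ⟨y, hy, hyN⟩ := hcau N ε (by omega) hε0 (by rw [hε]; field_simp; exact le_rfl)
  have hlε : -Real.log ε ≤ N * Real.log Λ := by
    have h1 : DD E N ≤ Λ ^ N := by
      unfold DD
      calc ∏ i ∈ Finset.range N, E i ≤ ∏ _i ∈ Finset.range N, Λ :=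
            Finset.prod_le_prod (fun i _ => (S.E0 i).le) fun i _ => hE i
        _ = Λ ^ N := by rw [Finset.prod_const, Finset.card_range]
    have h2 := Real.log_le_log hD0 h1
    rw [Real.log_pow] at h2
    rw [hε, Real.log_div (by linarith) hD0.ne']
    have := Real.log_nonneg hC₁
    linarith
  obtain ⟨W, hW⟩ : ∃ W : ℝ, W = K₁ * (N : ℝ) ^ 2 := ⟨_, rfl⟩
  have hW1 : 1 ≤ W := by
    rw [hW]
    exact one_le_mul_of_one_le_of_one_le hK₁1 (one_le_pow₀ hN1)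
  have hsum : ∀ (J : ℕ) (δ : ℝ), J ≤ N → ε ≤ δ → δ ≤ 1 →
      (∀ i, 1 ≤ i → i < J → δ ≤ ‖f^[i] v - v‖) →
      ∑ i ∈ Finset.range J, (DD E i)⁻¹ ≤ Real.exp W := by
    intro J δ h1 h2 h3 h4
    refine (S.sum_le hΘ hθ h1 (hε0.trans_le h2) h3 h4).trans ?_
    apply Real.exp_le_exp.mpr
    have h5 := Real.log_le_log hε0 h2
    rw [hW, hK₁]
    have h6 : 1 + Real.log (κ * Θ) - Real.log δ ≤ 1 + Real.log (κ * Θ) + N * Real.log Λ := by
      linarith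
    calc (N : ℝ) * (1 + Real.log (κ * Θ) - Real.log δ)
        ≤ N * (1 + Real.log (κ * Θ) + N * Real.log Λ) := by gcongr
      _ ≤ N * (N * (1 + Real.log (κ * Θ)) + N * Real.log Λ) := by
          gcongr
          nlinarith
      _ = _ := by ring
  have hA0 : 0 < A := by linarith
  have hWA1 : 1 ≤ W ^ A := Real.one_le_rpow hW1 hA0.le
  have hAW1 : 1 ≤ A * W ^ A := one_le_mul_of_one_le_of_one_le hA hWA1
  have hWa : W ^ A ≤ K₁ ^ a * (N : ℝ) ^ (2 * a) := by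
    calc W ^ A ≤ W ^ (a : ℝ) := Real.rpow_le_rpow_of_exponent_le hW1 haA
      _ = W ^ a := Real.rpow_natCast _ _
      _ = _ := by rw [hW, mul_pow, ← pow_mul]
  obtain ⟨Q, hQ⟩ : ∃ Q : ℝ, Q = C₁ * κ ^ 2 * A * W ^ A * (N : ℝ) ^ 2 := ⟨_, rfl⟩
  have hκ2 : 1 ≤ κ ^ 2 := one_le_pow₀ hκ
  have hN21 : 1 ≤ (N : ℝ) ^ 2 := one_le_pow₀ hN1
  have hQ1 : 1 ≤ Q := by
    rw [hQ]
    exact one_le_mul_of_one_le_of_one_le (one_le_mul_of_one_le_of_one_le
      (one_le_mul_of_one_le_of_one_le (one_le_mul_of_one_le_of_one_le hC₁ hκ2) hA) hWA1) hN21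
  have hQle : Q ≤ C₁ * κ ^ 2 * A * K₁ ^ a * (N : ℝ) ^ (2 * a + 2) := by
    rw [hQ]
    calc C₁ * κ ^ 2 * A * W ^ A * (N : ℝ) ^ 2
        ≤ C₁ * κ ^ 2 * A * (K₁ ^ a * (N : ℝ) ^ (2 * a)) * (N : ℝ) ^ 2 := by gcongr
      _ = _ := by rw [pow_add]; ring
  obtain ⟨η, hη⟩ : ∃ η : ℝ, η = A * W ^ A * ε := ⟨_, rfl⟩
  have hηε : ε ≤ η := by rw [hη]; exact le_mul_of_one_le_left hε0.le hAW1
  have hη0 : 0 < η := hε0.trans_le hηε
  have hlη : c - Real.log η + 2 * Real.log X ≤ N * (c₂ + 2 * Real.log K) := by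
    have h1 := Real.log_le_log hε0 hηε
    have h2 : Real.log N ≤ N := by
      have := Real.log_le_sub_one_of_pos (show (0 : ℝ) < N by linarith)
      linarith
    have h3 : (0 : ℝ) ≤ m := Nat.cast_nonneg m
    rw [hlX, hc₂]
    have h4 : (m : ℝ) * Real.log N ≤ m * N := by gcongr
    nlinarith
  have hX1' : 16 * N * Q * (N * (c₂ + 2 * Real.log K)) ^ b ≤ X ^ 2 := by
    calc 16 * N * Q * (N * (c₂ + 2 * Real.log K)) ^ b
        ≤ 16 * N * (C₁ * κ ^ 2 * A * K₁ ^ a * (N : ℝ) ^ (2 * a + 2)) *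
          (N * (c₂ + 2 * Real.log K)) ^ b := by gcongr
      _ = (16 * (C₁ * κ ^ 2 * A * K₁ ^ a) * (c₂ + 2 * Real.log K) ^ b) *
          (N : ℝ) ^ (2 * a + 3 + b) := by
          rw [mul_pow, pow_add, pow_add, pow_add]
          ring
      _ ≤ K ^ 2 * (N : ℝ) ^ (2 * m) := by
          gcongr
          omega
      _ = X ^ 2 := by rw [hX, mul_pow, ← pow_mul, mul_comm m 2]
  have hbase : 1 ≤ N * (c₂ + 2 * Real.log K) := by
    have h1 : 1 ≤ c₂ + 2 * Real.log K := by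
      rw [hc₂]
      have : (0 : ℝ) ≤ m := Nat.cast_nonneg m
      linarith
    exact one_le_mul_of_one_le_of_one_le hN1 h1
  have h4Q : 4 * Q ≤ X ^ 2 := by
    refine le_trans ?_ hX1'
    have h1 : 1 ≤ (N * (c₂ + 2 * Real.log K)) ^ b := one_le_pow₀ hbase
    have h2 : 4 * Q ≤ 16 * N * Q := by nlinarith
    calc 4 * Q ≤ 16 * N * Q * 1 := by linarith
      _ ≤ _ := by gcongr
  rcases le_or_gt η 1 with hη1 | hη1
  swap
  · -- the polynomial case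
    apply hfin _ hD0
    have h1 : DD E N ≤ 4 * Q := by
      rw [hη, hε, mul_div_assoc', lt_div_iff₀ hD0, one_mul] at hη1
      refine hη1.le.trans ?_
      rw [hQ]
      have h2 : A * W ^ A * C₁ ≤ (A * W ^ A * C₁) * (4 * κ ^ 2 * (N : ℝ) ^ 2) := by
        apply le_mul_of_one_le_right (by positivity)
        nlinarith
      refine h2.trans (le_of_eq ?_)
      ring
    calc DD E N ≤ X ^ 2 := h1.trans h4Q
      _ ≤ _ := pow_le_pow_right₀ (by linarith) (by omega)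
  have hηW : ∀ δ : ℝ, η ≤ δ → A * W ^ A * ‖y - v‖ ≤ δ := by
    intro δ h1
    refine le_trans ?_ h1
    rw [hη]
    gcongr
  have hQ' : ∀ t : ℝ, 0 ≤ t → κ ^ 2 * (A * W ^ A * (N : ℝ) ^ 2 * t) ≤ Q * t := by
    intro t ht
    rw [hQ]
    have h1 : κ ^ 2 * (A * W ^ A * (N : ℝ) ^ 2 * t) * 1 ≤
        κ ^ 2 * (A * W ^ A * (N : ℝ) ^ 2 * t) * C₁ := by gcongr
    calc κ ^ 2 * (A * W ^ A * (N : ℝ) ^ 2 * t) ≤ κ ^ 2 * (A * W ^ A * (N : ℝ) ^ 2 * t) * C₁ := by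
          linarith
      _ = _ := by ring
  have s : Su f v E κ N b c Q η X := by
    refine ⟨by omega, hQ1, hη0, hη1, hX500, hbc, hc0, hlog, ?_, ?_, ?_⟩
    · refine le_trans ?_ hX1'
      have h1 := Real.log_nonpos hη0.le hη1
      have h2 : 0 ≤ Real.log X := Real.log_nonneg (by linarith)
      have h3 : 0 ≤ c - Real.log η + 2 * Real.log X := by linarith
      gcongr
    · intro j δ h1 h2 h3 h4 h5
      have h6 := C.one j N y δ W h1 (by omega) hyN (hη0.trans_le h3) h4 h5 hW1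
        (hsum j δ h2 (hηε.trans h3) h4 h5) (hηW δ h3)
      have h7 := hQ' 1 zero_le_one
      rw [mul_one, mul_one] at h7
      refine le_trans ?_ h7
      gcongr
    · intro j δ h1 h2 h3 h4 h5
      have h6 := C.two j N y δ W h1 (by omega) hyN (hη0.trans_le h3) h4 h5 hW1
        (hsum j δ h2 (hηε.trans h3) h4 h5) (hηW δ h3)
      have h8 : 0 ≤ ‖f^[j] v - v‖ * (c - Real.log ‖f^[j] v - v‖) ^ b := by
        have := hlog j
        apply mul_nonneg (norm_nonneg _)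
        apply pow_nonneg
        linarith
      have h7 := hQ' _ h8
      refine le_trans ?_ h7
      gcongr
  apply hfin _ hD0
  have h1 := s.deriv_lt S (fun m h1 _ => hno m h1) (fun m h1 _ => hne m h1)
    (Nat.lt_pow_succ_log_self (by norm_num) N) (by
      have h2 : η * DD E N = A * W ^ A * C₁ := by
        rw [hη, hε]
        field_simp
      rw [h2, hQ]
      have h3 : A * W ^ A * C₁ ≤ (A * W ^ A * C₁) * (4 * κ ^ 2 * (N : ℝ) ^ 2) := by
        apply le_mul_of_one_le_right (by positivity)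
        nlinarith
      refine h3.trans (le_of_eq ?_)
      ring)
  calc DD E N ≤ 4 * Q * (X ^ 4) ^ (Nat.log 2 N).succ := h1
    _ ≤ X ^ 2 * (X ^ 4) ^ (Nat.log 2 N).succ := by gcongr
    _ = _ := by rw [← pow_mul, ← pow_add, Nat.succ_eq_add_one]; congr 1; ring

end Pool.Agent.Zk29.Ab
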